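import Pool.Agent.TH685.TI.Thin2

set_option autoImplicit false
set_option maxHeartbeats 1000000

/-! # Decompositions `n = k + m` with `p_k + 2` and `p_{p_m} + 2` prime: the first candidates fail -/

namespace Pool.Agent.Results.MP_04e9b2_nt.FirstCandidates

open Finset Pool.Agent.TH685.Gen

/-- the `j`-th prime: `p 1 = 2`, `p 2 = 3`, ... -/
noncomputable def p (j : ℕ) : ℕ := Nat.nth Nat.Prime (j - 1)

/-- **Theorem.** For every `ε > 0` there is `c > 0` such that for all large `X` and every property `U` of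
natural numbers, all but at most `ε X` of the integers `n ≤ X` have the following property: if `n = k + m`
with `k, m ≥ 1`, `p_k + 2` prime and `U m` then more than `c log X` positive integers `j < m` have the
property `U`. (For `U j` := (`p_{p_j} + 2` is prime) this concerns Q1.) -/
theorem result (ε : ℝ) (hε : 0 < ε) : ∃ c : ℝ, 0 < c ∧ ∃ X₀ : ℕ, ∀ X : ℕ, X₀ ≤ X →
    ∀ U : ℕ → Prop, ∃ B : Finset ℕ, (B.card : ℝ) ≤ ε * X ∧ ∀ n : ℕ, n ≤ X → n ∉ B →
      ∀ k m : ℕ, 1 ≤ k → 1 ≤ m → k + m = n → (p k + 2).Prime → U m →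
        c * Real.log X < Set.ncard {j : ℕ | 1 ≤ j ∧ j < m ∧ U j} := by
  have hF : Few (fun j => (Nat.nth Nat.Prime (j - 1) + 2).Prime) :=
    few_of_thin (fun q => (q + 2).Prime) thin_twin
  obtain ⟨c, hc, X₀, h⟩ := cover _ hF ε hε
  refine ⟨c, hc, X₀, fun X hX U => ?_⟩
  obtain ⟨B, hB, hn⟩ := h X hX U
  refine ⟨B, hB, fun n hnX hnB k m hk hm hkm h1 h2 => ?_⟩
  unfold p at h1
  exact hn n hnX hnB k m hk hm hkm h1 h2

end Pool.Agent.Results.MP_04e9b2_nt.FirstCandidates
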